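import Mathlib

set_option autoImplicit false

open MeasureTheory Filter Topology Set

namespace Pool.Agent.Y253.Lac

/-- the integer part at the dyadic scale `N` -/
noncomputable def fl (N : ℕ) (t : ℝ) : ℤ := ⌊(2:ℝ) ^ N * t⌋

theorem measurable_fl (N : ℕ) : Measurable (fl N) :=
  Int.measurable_floor.comp (measurable_const_mul _)

theorem fl_succ (N : ℕ) (t : ℝ) : fl N t = fl (N + 1) t / 2 := by
  unfold fl
  have h : (2:ℝ) ^ N * t = ((2:ℝ) ^ (N + 1) * t) / ((2:ℕ) : ℝ) := by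
    push_cast; rw [pow_succ]; ring
  rw [h, Int.floor_div_natCast]
  rfl

/-- the dyadic filtration -/
noncomputable def Fd : Filtration ℕ (inferInstance : MeasurableSpace ℝ) where
  seq N := MeasurableSpace.comap (fl N) ⊤
  mono' := by
    refine monotone_nat_of_le_succ fun N => ?_
    rintro s ⟨T, -, rfl⟩
    refine ⟨(fun i : ℤ => i / 2) ⁻¹' T, trivial, ?_⟩
    ext t
    simp only [mem_preimage]
    rw [fl_succ N t]
  le' N := by
    rintro s ⟨T, -, rfl⟩
    exact measurable_fl N (MeasurableSet.of_discrete)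

/-- the dyadic difference quotients of `Φ` as a function of the integer part -/
noncomputable def Xc (Φ : ℝ → ℝ) (N : ℕ) (i : ℤ) : ℝ :=
  (2:ℝ) ^ N * (Φ ((i + 1) / 2 ^ N) - Φ (i / 2 ^ N))

/-- the dyadic difference quotients of `Φ` -/
noncomputable def X (Φ : ℝ → ℝ) (N : ℕ) (t : ℝ) : ℝ := Xc Φ N (fl N t)

theorem X_meas (Φ : ℝ → ℝ) (N : ℕ) : Measurable[Fd N] (X Φ N) :=
  (measurable_from_top (f := Xc Φ N)).comp (comap_measurable (m := ⊤) (fl N))

theorem X_meas' (Φ : ℝ → ℝ) (N : ℕ) : Measurable (X Φ N) :=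
  (X_meas Φ N).mono (Fd.le N) le_rfl

theorem Xc_bound {Φ : ℝ → ℝ} {B : ℝ} (hB : ∀ t, |Φ t| ≤ B) (N : ℕ) (i : ℤ) :
    |Xc Φ N i| ≤ 2 ^ N * (2 * B) := by
  unfold Xc
  rw [abs_mul, abs_of_pos (by positivity : (0:ℝ) < 2 ^ N)]
  refine mul_le_mul_of_nonneg_left ?_ (by positivity)
  refine (abs_sub _ _).trans ?_
  have := hB ((i + 1) / 2 ^ N)
  have := hB (i / 2 ^ N)
  linarith

theorem intervalIntegral_floor (c : ℤ → ℝ) (M : ℕ) :
    IntervalIntegrable (fun u : ℝ => c ⌊u⌋) volume 0 M ∧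
    ∫ u in (0:ℝ)..M, c ⌊u⌋ = ∑ i ∈ Finset.range M, c i := by
  induction M with
  | zero => simp
  | succ M ih =>
    have h1 : EqOn (fun _ : ℝ => c M) (fun u : ℝ => c ⌊u⌋) (Ioo (M:ℝ) ((M + 1 : ℕ) : ℝ)) := by
      intro u hu
      have : ⌊u⌋ = (M : ℤ) := by
        rw [Int.floor_eq_iff]
        push_cast
        refine ⟨hu.1.le, ?_⟩
        have := hu.2
        push_cast at this
        exact this
      simp only [this]
    have hle : (M:ℝ) ≤ ((M + 1 : ℕ) : ℝ) := by push_cast; linarith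
    have hint : IntervalIntegrable (fun u : ℝ => c ⌊u⌋) volume (M:ℝ) ((M + 1 : ℕ) : ℝ) := by
      rw [intervalIntegrable_iff_integrableOn_Ioo_of_le hle]
      exact (integrableOn_const (by simp)).congr_fun h1 measurableSet_Ioo
    refine ⟨ih.1.trans hint, ?_⟩
    rw [← intervalIntegral.integral_add_adjacent_intervals ih.1 hint, ih.2, Finset.sum_range_succ]
    congr 1
    rw [intervalIntegral.integral_of_le hle, integral_Ioc_eq_integral_Ioo,
      ← setIntegral_congr_fun measurableSet_Ioo h1]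
    simp

theorem setIntegral_fl (c : ℤ → ℝ) (N : ℕ) :
    ∫ t in Ico (0:ℝ) 1, c (fl N t) = (∑ i ∈ Finset.range (2 ^ N), c i) / 2 ^ N := by
  have h := (intervalIntegral_floor c (2 ^ N)).2
  have h2 := intervalIntegral.integral_comp_mul_left (a := 0) (b := 1) (fun u : ℝ => c ⌊u⌋)
    (c := (2:ℝ) ^ N) (by positivity)
  rw [integral_Ico_eq_integral_Ioo, ← integral_Ioc_eq_integral_Ioo,
    ← intervalIntegral.integral_of_le zero_le_one]
  unfold fl
  rw [h2]
  have : (2:ℝ) ^ N * 1 = ((2 ^ N : ℕ) : ℝ) := by push_cast; ring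
  rw [mul_zero, this, h, smul_eq_mul]
  ring

theorem sum_double (f : ℕ → ℝ) (M : ℕ) :
    ∑ i ∈ Finset.range (2 * M), f i = ∑ i ∈ Finset.range M, (f (2 * i) + f (2 * i + 1)) := by
  induction M with
  | zero => simp
  | succ M ih =>
    rw [show 2 * (M + 1) = 2 * M + 1 + 1 by ring, Finset.sum_range_succ, Finset.sum_range_succ, ih,
      Finset.sum_range_succ]
    ring

theorem X_martingale {Φ : ℝ → ℝ} {B : ℝ} (hB : ∀ t, |Φ t| ≤ B) :
    Martingale (X Φ) Fd (volume.restrict (Ico (0:ℝ) 1)) := by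
  refine martingale_of_setIntegral_eq_succ (fun N => (X_meas Φ N).stronglyMeasurable)
    (fun N => ?_) (fun N s hs => ?_)
  · refine Integrable.of_bound (C := 2 ^ N * (2 * B)) (X_meas' Φ N).aestronglyMeasurable
      (Eventually.of_forall fun t => ?_)
    exact Xc_bound hB N _
  · obtain ⟨T, -, rfl⟩ := hs
    classical
    have hms : MeasurableSet (fl N ⁻¹' T) := measurable_fl N (MeasurableSet.of_discrete)
    rw [← integral_indicator hms, ← integral_indicator hms]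
    have e1 : (fl N ⁻¹' T).indicator (X Φ N) = fun t => (T.indicator (Xc Φ N)) (fl N t) := by
      ext t
      simp only [indicator, mem_preimage, X]
    have e2 : (fl N ⁻¹' T).indicator (X Φ (N + 1)) =
        fun t => (fun i : ℤ => if i / 2 ∈ T then Xc Φ (N + 1) i else 0) (fl (N + 1) t) := by
      ext t
      simp only [indicator, mem_preimage, X]
      rw [fl_succ N t]
    rw [e1, e2, setIntegral_fl, setIntegral_fl, pow_succ, mul_comm (2 ^ N) 2, sum_double,
      pow_succ, Finset.sum_div, Finset.sum_div]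
    refine Finset.sum_congr rfl fun i _ => ?_
    have h1 : (((2 * i : ℕ) : ℤ)) / 2 = (i : ℤ) := by omega
    have h2 : (((2 * i + 1 : ℕ) : ℤ)) / 2 = (i : ℤ) := by omega
    rw [h1, h2]
    by_cases hi : (i : ℤ) ∈ T
    · rw [indicator_of_mem hi, if_pos hi, if_pos hi]
      unfold Xc
      have a1 : ((((2 * i : ℕ) : ℤ) : ℝ)) / 2 ^ (N + 1) = (((i : ℕ) : ℤ) : ℝ) / 2 ^ N := by
        push_cast; rw [pow_succ]; field_simp
      have a2 : ((((2 * i + 1 : ℕ) : ℤ) : ℝ) + 1) / 2 ^ (N + 1) = ((((i : ℕ) : ℤ) : ℝ) + 1) / 2 ^ N := by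
        push_cast; rw [pow_succ]; field_simp; ring
      have a3 : ((((2 * i : ℕ) : ℤ) : ℝ) + 1) / 2 ^ (N + 1) = (((2 * i + 1 : ℕ) : ℤ) : ℝ) / 2 ^ (N + 1) := by
        push_cast; ring
      rw [a1, a2, a3, pow_succ]
      field_simp
      ring
    · rw [indicator_of_notMem hi, if_neg hi, if_neg hi]
      simp

/-- the filtration along a monotone sequence of scales -/
noncomputable def Fs (ν : ℕ → ℕ) (hν : Monotone ν) :
    Filtration ℕ (inferInstance : MeasurableSpace ℝ) where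
  seq k := Fd (ν k)
  mono' := fun _ _ h => Fd.mono (hν h)
  le' k := Fd.le (ν k)

theorem Y_martingale {Φ : ℝ → ℝ} {B : ℝ} (hB : ∀ t, |Φ t| ≤ B) (ν : ℕ → ℕ) (hν : Monotone ν) :
    Martingale (fun k => X Φ (ν k)) (Fs ν hν) (volume.restrict (Ico (0:ℝ) 1)) := by
  have h := X_martingale hB
  exact ⟨fun k => h.1 (ν k), fun i j hij => h.2 (ν i) (ν j) (hν hij)⟩

theorem dichotomy {Φ : ℝ → ℝ} {B : ℝ} (hB : ∀ t, |Φ t| ≤ B) (ν : ℕ → ℕ) (hν : Monotone ν)
    {R : ℝ} (hR : ∀ k t, |X Φ (ν (k + 1)) t - X Φ (ν k) t| ≤ R) :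
    ∀ᵐ t ∂(volume.restrict (Ico (0:ℝ) 1)),
      (BddAbove (Set.range fun k => X Φ (ν k) t) → ∃ c, Tendsto (fun k => X Φ (ν k) t) atTop (𝓝 c)) ∧
      (BddBelow (Set.range fun k => X Φ (ν k) t) → ∃ c, Tendsto (fun k => X Φ (ν k) t) atTop (𝓝 c)) := by
  have hm := Y_martingale hB ν hν
  have hR0 : 0 ≤ R := (abs_nonneg _).trans (hR 0 0)
  have hbd : ∀ᵐ t ∂(volume.restrict (Ico (0:ℝ) 1)), ∀ i,
      |(fun k => X Φ (ν k)) (i + 1) t - (fun k => X Φ (ν k)) i t| ≤ (⟨R, hR0⟩ : NNReal) :=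
    Eventually.of_forall fun t i => hR i t
  filter_upwards [hm.submartingale.bddAbove_iff_exists_tendsto hbd,
    hm.bddAbove_range_iff_bddBelow_range hbd] with t h1 h2
  exact ⟨fun h => h1.1 h, fun h => h1.1 (h2.2 h)⟩

end Pool.Agent.Y253.Lac
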