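import Mathlib
import Pool.Agent.Y253.Lac.Dy

set_option autoImplicit false

open MeasureTheory Filter Topology Set Real

namespace Pool.Agent.Y253.Lac

/-- partial sums of the lacunary cosine series, in the variable `t = x / (2 π)` -/
noncomputable def S (n : ℕ → ℕ) (m : ℕ) (t : ℝ) : ℝ :=
  ∑ k ∈ Finset.range m, cos (2 * π * n k * t)

/-- the integrated series -/
noncomputable def Phi (n : ℕ → ℕ) (t : ℝ) : ℝ := ∑' j, sin (2 * π * n j * t) / (2 * π * n j)

/-- a lacunary sequence of positive integers -/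
structure LacSeq (n : ℕ → ℕ) (q : ℝ) : Prop where
  hq : 1 < q
  hn : ∀ k, 0 < n k
  hgap : ∀ k, q * (n k : ℝ) ≤ (n (k + 1) : ℝ)

namespace LacSeq

variable {n : ℕ → ℕ} {q : ℝ} (h : LacSeq n q)

include h

theorem npos (k : ℕ) : (0:ℝ) < n k := by exact_mod_cast h.hn k

theorem r0 : 0 < q⁻¹ := inv_pos.mpr (by linarith [h.hq])

theorem r1 : q⁻¹ < 1 := inv_lt_one_of_one_lt₀ h.hq

theorem geo (i d : ℕ) : q ^ d * (n i : ℝ) ≤ n (i + d) := by
  induction d with
  | zero => simp
  | succ d ih =>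
    have := h.hgap (i + d)
    calc q ^ (d + 1) * (n i : ℝ) = q * (q ^ d * n i) := by ring
      _ ≤ q * n (i + d) := mul_le_mul_of_nonneg_left ih (by linarith [h.hq])
      _ ≤ _ := this

theorem geo' (i d : ℕ) : (n i : ℝ) / n (i + d) ≤ (q⁻¹) ^ d := by
  have h' := h.geo i d
  have h1 := h.npos (i + d)
  have h2 : 0 < q := by linarith [h.hq]
  rw [div_le_iff₀ h1, inv_pow, inv_mul_eq_div, le_div_iff₀ (by positivity)]
  linarith

theorem n_mono : StrictMono n := by
  refine strictMono_nat_of_lt_succ fun k => ?_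
  have h1 := h.npos k
  have h2 := h.hgap k
  have h3 := h.hq
  have : (n k : ℝ) < n (k + 1) := by nlinarith
  exact_mod_cast this

theorem one_le (j : ℕ) : (1:ℝ) ≤ n j := by exact_mod_cast h.hn j

theorem inv_le (j : ℕ) : 1 / (n j : ℝ) ≤ (q⁻¹) ^ j := by
  have h1 := h.geo' 0 j
  rw [zero_add] at h1
  refine le_trans ?_ h1
  have := h.npos j
  gcongr
  exact h.one_le 0

theorem term_bound (j : ℕ) (t : ℝ) : |sin (2 * π * n j * t) / (2 * π * n j)| ≤ (q⁻¹) ^ j := by
  have h1 := h.npos j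
  have hpi : (1:ℝ) ≤ 2 * π := by nlinarith [pi_gt_three]
  rw [abs_div, abs_of_pos (by positivity : (0:ℝ) < 2 * π * n j)]
  refine le_trans ?_ (h.inv_le j)
  rw [div_le_div_iff₀ (by positivity) h1]
  have := abs_sin_le_one (2 * π * n j * t)
  nlinarith

theorem summ_r : Summable fun j : ℕ => (q⁻¹) ^ j :=
  summable_geometric_of_lt_one h.r0.le h.r1

theorem summ (t : ℝ) : Summable fun j => sin (2 * π * n j * t) / (2 * π * n j) :=
  Summable.of_norm_bounded h.summ_r fun j => h.term_bound j t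

theorem Phi_bound (t : ℝ) : |Phi n t| ≤ (1 - q⁻¹)⁻¹ := by
  rw [← tsum_geometric_of_lt_one h.r0.le h.r1, ← Real.norm_eq_abs]
  exact tsum_of_norm_bounded h.summ_r.hasSum fun j => by
    rw [Real.norm_eq_abs]; exact h.term_bound j t

/-- the scale attached to the index `k` -/
theorem nu_mono : Monotone fun k => Nat.log 2 (n k) := fun _ _ hij =>
  Nat.log_mono_right (h.n_mono.monotone hij)

theorem nu_le (k : ℕ) : (2:ℝ) ^ (Nat.log 2 (n k)) ≤ n k := by
  exact_mod_cast Nat.pow_log_le_self 2 (h.hn k).ne'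

theorem lt_nu (k : ℕ) : (n k : ℝ) ≤ 2 * (2:ℝ) ^ (Nat.log 2 (n k)) := by
  have := (Nat.lt_pow_succ_log_self (b := 2) (by norm_num) (n k)).le
  have h2 : (n k : ℝ) ≤ ((2 ^ (Nat.log 2 (n k) + 1) : ℕ) : ℝ) := by exact_mod_cast this
  push_cast at h2
  rw [pow_succ] at h2
  linarith

/-- the mean of a single cosine over a dyadic interval: high frequencies -/
theorem high (k i N : ℕ) (hN : (2:ℝ) ^ N ≤ n k) (a b : ℝ) :
    |2 ^ N * (sin (2 * π * n (k + i) * b) / (2 * π * n (k + i)) -
      sin (2 * π * n (k + i) * a) / (2 * π * n (k + i)))| ≤ (q⁻¹) ^ i := by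
  have h1 := h.npos (k + i)
  have hpi : (2:ℝ) ≤ 2 * π := by nlinarith [pi_gt_three]
  rw [← sub_div, ← mul_div_assoc, abs_div, abs_of_pos (by positivity : (0:ℝ) < 2 * π * n (k + i)),
    abs_mul, abs_of_pos (by positivity : (0:ℝ) < 2 ^ N)]
  refine le_trans ?_ (h.geo' k i)
  rw [div_le_div_iff₀ (by positivity) h1]
  have h2 : |sin (2 * π * n (k + i) * b) - sin (2 * π * n (k + i) * a)| ≤ 2 := by
    refine (abs_sub _ _).trans ?_
    have := abs_sin_le_one (2 * π * n (k + i) * b)
    have := abs_sin_le_one (2 * π * n (k + i) * a)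
    linarith
  have h3 := h.npos k
  calc 2 ^ N * |sin (2 * π * n (k + i) * b) - sin (2 * π * n (k + i) * a)| * n (k + i)
      ≤ n k * 2 * n (k + i) := by gcongr
    _ = n k * (2 * n (k + i)) := by ring
    _ ≤ n k * (2 * π * n (k + i)) := by gcongr

/-- low frequencies -/
theorem low (j N : ℕ) (t a b : ℝ) (hab : b = a + 1 / 2 ^ N) (hat : a ≤ t) (htb : t ≤ b) :
    |2 ^ N * (sin (2 * π * n j * b) / (2 * π * n j) -
      sin (2 * π * n j * a) / (2 * π * n j)) - cos (2 * π * n j * t)| ≤ 2 * π * n j / 2 ^ N := by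
  have h1 := h.npos j
  have hlt : a < b := by rw [hab]; have : (0:ℝ) < 1 / 2 ^ N := by positivity
                         linarith
  obtain ⟨s, hs, hs'⟩ := exists_hasDerivAt_eq_slope (fun x => sin (2 * π * n j * x) / (2 * π * n j))
    (fun x => cos (2 * π * n j * x)) hlt (by fun_prop) (fun x _ => by
      have := ((hasDerivAt_id x).const_mul (2 * π * n j)).sin.div_const (2 * π * n j)
      simp only [id, mul_one] at this
      rwa [mul_div_assoc, div_self (by positivity), mul_one] at this)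
  have e : 2 ^ N * (sin (2 * π * n j * b) / (2 * π * n j) -
      sin (2 * π * n j * a) / (2 * π * n j)) = cos (2 * π * n j * s) := by
    rw [hs']
    have : b - a = 1 / 2 ^ N := by rw [hab]; ring
    rw [this]
    field_simp
  rw [e]
  have h3 := abs_cos_sub_cos_le (2 * π * n j * s) (2 * π * n j * t)
  refine h3.trans ?_
  rw [← mul_sub, abs_mul, abs_of_pos (by positivity : (0:ℝ) < 2 * π * n j), div_eq_mul_one_div]
  refine mul_le_mul_of_nonneg_left ?_ (by positivity)
  rw [abs_le]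
  constructor <;> linarith [hs.1, hs.2]

/-- the constant of the approximation -/
noncomputable def C1 (q : ℝ) : ℝ := (4 * π + 1) * (1 - q⁻¹)⁻¹

theorem C1_pos : 0 < C1 q := by
  unfold C1
  have := h.r1
  have h2 : 0 < 1 - q⁻¹ := by linarith
  positivity

theorem approx (k : ℕ) (t : ℝ) : |X (Phi n) (Nat.log 2 (n k)) t - S n k t| ≤ C1 q := by
  set N := Nat.log 2 (n k) with hN
  set a : ℝ := (fl N t : ℝ) / 2 ^ N with ha
  set b : ℝ := ((fl N t : ℝ) + 1) / 2 ^ N with hb
  have hab : b = a + 1 / 2 ^ N := by rw [hb, ha]; ring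
  have hat : a ≤ t := by
    rw [ha, div_le_iff₀ (by positivity)]
    have := Int.floor_le ((2:ℝ) ^ N * t)
    unfold fl
    linarith
  have htb : t ≤ b := by
    rw [hb, le_div_iff₀ (by positivity)]
    have := (Int.lt_floor_add_one ((2:ℝ) ^ N * t)).le
    unfold fl
    linarith
  set d : ℕ → ℝ := fun j => 2 ^ N * (sin (2 * π * n j * b) / (2 * π * n j) -
      sin (2 * π * n j * a) / (2 * π * n j)) with hd
  have hds : Summable d := ((h.summ b).sub (h.summ a)).mul_left _
  have hX : X (Phi n) N t = ∑' j, d j := by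
    unfold X Xc Phi
    rw [tsum_mul_left, (h.summ b).tsum_sub (h.summ a)]
  have hsplit := hds.sum_add_tsum_nat_add k
  have e1 : X (Phi n) N t - S n k t =
      ∑ j ∈ Finset.range k, (d j - cos (2 * π * n j * t)) + ∑' i, d (i + k) := by
    rw [hX, ← hsplit, Finset.sum_sub_distrib]
    unfold S
    ring
  rw [e1]
  have r0 := h.r0
  have r1 := h.r1
  have h2N := h.nu_le k
  have h2N' := h.lt_nu k
  rw [← hN] at h2N h2N'
  have hk := h.npos k
  -- low frequencies
  have b1 : |∑ j ∈ Finset.range k, (d j - cos (2 * π * n j * t))| ≤ 4 * π * (1 - q⁻¹)⁻¹ := by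
    refine (Finset.abs_sum_le_sum_abs _ _).trans ?_
    have step : ∀ j ∈ Finset.range k, |d j - cos (2 * π * n j * t)| ≤ 4 * π * (q⁻¹) ^ (k - j) := by
      intro j hj
      have hj' : j < k := Finset.mem_range.mp hj
      refine (h.low j N t a b hab hat htb).trans ?_
      have g := h.geo' j (k - j)
      rw [Nat.add_sub_cancel' hj'.le] at g
      have e : 2 * π * n j / 2 ^ N ≤ 4 * π * ((n j : ℝ) / n k) := by
        rw [← mul_div_assoc, div_le_div_iff₀ (by positivity) hk]
        have := h.npos j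
        nlinarith [mul_pos pi_pos this]
      refine e.trans ?_
      gcongr
    refine (Finset.sum_le_sum step).trans ?_
    rw [← Finset.mul_sum]
    refine mul_le_mul_of_nonneg_left ?_ (by positivity)
    have e2 : ∑ j ∈ Finset.range k, (q⁻¹) ^ (k - j) ≤ ∑ j ∈ Finset.range k, (q⁻¹) ^ (k - 1 - j) := by
      refine Finset.sum_le_sum fun j hj => ?_
      exact pow_le_pow_of_le_one r0.le r1.le (by omega)
    refine e2.trans ?_
    rw [Finset.sum_range_reflect (fun i => (q⁻¹) ^ i) k]
    rw [← tsum_geometric_of_lt_one r0.le r1]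
    exact h.summ_r.sum_le_tsum _ (fun i _ => by positivity)
  -- high frequencies
  have b2 : |∑' i, d (i + k)| ≤ (1 - q⁻¹)⁻¹ := by
    rw [← tsum_geometric_of_lt_one r0.le r1, ← Real.norm_eq_abs]
    refine tsum_of_norm_bounded h.summ_r.hasSum fun i => ?_
    rw [Real.norm_eq_abs, add_comm i k]
    exact h.high k i N h2N a b
  calc _ ≤ _ := abs_add_le _ _
    _ ≤ 4 * π * (1 - q⁻¹)⁻¹ + (1 - q⁻¹)⁻¹ := add_le_add b1 b2
    _ = C1 q := by unfold C1; ring

theorem S_succ (k : ℕ) (t : ℝ) : |S n (k + 1) t - S n k t| ≤ 1 := by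
  unfold S
  rw [Finset.sum_range_succ, add_sub_cancel_left]
  exact abs_cos_le_one _

/-- almost everywhere either the modified sums converge or they are unbounded in both directions -/
theorem dich : ∀ᵐ t ∂(volume.restrict (Ico (0:ℝ) 1)),
    (∃ c, Tendsto (fun k => X (Phi n) (Nat.log 2 (n k)) t) atTop (𝓝 c)) ∨
    (¬ BddAbove (Set.range fun k => X (Phi n) (Nat.log 2 (n k)) t) ∧
      ¬ BddBelow (Set.range fun k => X (Phi n) (Nat.log 2 (n k)) t)) := by
  have hR : ∀ k t, |X (Phi n) (Nat.log 2 (n (k + 1))) t - X (Phi n) (Nat.log 2 (n k)) t| ≤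
      2 * C1 q + 1 := by
    intro k t
    have h1 := h.approx (k + 1) t
    have h2 := h.approx k t
    have h3 := h.S_succ k t
    rw [abs_le] at *
    constructor <;> linarith
  filter_upwards [dichotomy h.Phi_bound (fun k => Nat.log 2 (n k)) h.nu_mono hR] with t ht
  by_cases hc : ∃ c, Tendsto (fun k => X (Phi n) (Nat.log 2 (n k)) t) atTop (𝓝 c)
  · exact Or.inl hc
  · exact Or.inr ⟨fun h => hc (ht.1 h), fun h => hc (ht.2 h)⟩

end LacSeq

end Pool.Agent.Y253.Lac
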