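import Mathlib
import Pool.Agent.Y253.Lac.Ap

set_option autoImplicit false

open MeasureTheory Filter Topology Set Real

namespace Pool.Agent.Y253.Lac

theorem abs_integral_cos_le {w : ℝ} (hw : 0 < w) (a b : ℝ) :
    |∫ t in a..b, cos (w * t)| ≤ 2 / w := by
  rw [intervalIntegral.integral_comp_mul_left (fun u => cos u) hw.ne', integral_cos, smul_eq_mul,
    abs_mul, abs_of_pos (inv_pos.mpr hw), div_eq_mul_inv, mul_comm]
  refine mul_le_mul_of_nonneg_right ?_ (inv_pos.mpr hw).le
  refine (abs_sub _ _).trans ?_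
  have := abs_sin_le_one (w * b)
  have := abs_sin_le_one (w * a)
  linarith

theorem abs_integral_cos_mul_cos_le {u v : ℝ} (hu : 0 < u) (huv : u < v) (a b : ℝ) :
    |∫ t in a..b, cos (u * t) * cos (v * t)| ≤ 2 / (v - u) := by
  have e : (fun t => cos (u * t) * cos (v * t)) =
      fun t => (1 / 2) * (cos ((v - u) * t) + cos ((v + u) * t)) := by
    ext t
    rw [sub_mul, add_mul, cos_sub, cos_add]
    ring
  rw [e, intervalIntegral.integral_const_mul, intervalIntegral.integral_add
    (by apply Continuous.intervalIntegrable; fun_prop)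
    (by apply Continuous.intervalIntegrable; fun_prop), abs_mul]
  have h1 := abs_integral_cos_le (w := v - u) (by linarith) a b
  have h2 := abs_integral_cos_le (w := v + u) (by linarith) a b
  have h3 : 2 / (v + u) ≤ 2 / (v - u) := by
    apply div_le_div_of_nonneg_left (by norm_num) (by linarith) (by linarith)
  have h4 := abs_add_le (∫ t in a..b, cos ((v - u) * t)) (∫ t in a..b, cos ((v + u) * t))
  rw [abs_of_pos (by norm_num : (0:ℝ) < 1 / 2)]
  linarith

theorem integral_cos_sq_ge {w : ℝ} (hw : 0 < w) (a b : ℝ) :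
    (b - a) / 2 - 1 / w ≤ ∫ t in a..b, cos (w * t) * cos (w * t) := by
  have e : (fun t => cos (w * t) * cos (w * t)) =
      fun t => (1 / 2) * (1 + cos ((2 * w) * t)) := by
    ext t
    rw [mul_assoc, cos_two_mul]
    ring
  rw [e, intervalIntegral.integral_const_mul, intervalIntegral.integral_add
    (by apply Continuous.intervalIntegrable; fun_prop)
    (by apply Continuous.intervalIntegrable; fun_prop)]
  have h1 := abs_integral_cos_le (w := 2 * w) (by linarith) a b
  have h2 : 2 / (2 * w) = 1 / w := by field_simp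
  rw [h2] at h1
  have h3 := (abs_le.mp h1).1
  have h4 : 0 < 1 / w := by positivity
  simp only [intervalIntegral.integral_const, smul_eq_mul, mul_one]
  linarith

namespace LacSeq

variable {n : ℕ → ℕ} {q : ℝ} (h : LacSeq n q)

include h

theorem gap_ge (i j : ℕ) (hij : i < j) : (1 - q⁻¹) * n j ≤ (n j : ℝ) - n i := by
  have h1 := h.geo' i (j - i)
  rw [Nat.add_sub_cancel' hij.le] at h1
  have hj := h.npos j
  rw [div_le_iff₀ hj] at h1
  have h2 : (q⁻¹) ^ (j - i) ≤ (q⁻¹) ^ 1 := pow_le_pow_of_le_one h.r0.le h.r1.le (by omega)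
  rw [pow_one] at h2
  nlinarith

theorem l2step (k p : ℕ) (a b : ℝ) :
    (∫ t in a..b, (S n (k + p) t - S n k t) ^ 2) + (b - a) / 2 -
      (2 * p + 1) / ((1 - q⁻¹) * n (k + p)) ≤
    ∫ t in a..b, (S n (k + (p + 1)) t - S n k t) ^ 2 := by
  have hr1 := h.r1
  have hr0 := h.r0
  have hnp := h.npos (k + p)
  have hr : 0 < 1 - q⁻¹ := by linarith
  have hcontS : ∀ m, Continuous (S n m) := fun m => by unfold S; fun_prop
  have e : (fun t => (S n (k + (p + 1)) t - S n k t) ^ 2) =
      fun t => ((S n (k + p) t - S n k t) ^ 2 +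
        2 * ((S n (k + p) t - S n k t) * cos (2 * π * n (k + p) * t))) +
        cos (2 * π * n (k + p) * t) * cos (2 * π * n (k + p) * t) := by
    ext t
    have : S n (k + (p + 1)) t = S n (k + p) t + cos (2 * π * n (k + p) * t) := by
      unfold S; rw [← add_assoc, Finset.sum_range_succ]
    rw [this]; ring
  have hc := hcontS (k + p)
  have hc' := hcontS k
  rw [e, intervalIntegral.integral_add (by apply Continuous.intervalIntegrable; fun_prop)
    (by apply Continuous.intervalIntegrable; fun_prop),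
    intervalIntegral.integral_add (by apply Continuous.intervalIntegrable; fun_prop)
    (by apply Continuous.intervalIntegrable; fun_prop), intervalIntegral.integral_const_mul]
  have h1 := integral_cos_sq_ge (w := 2 * π * n (k + p)) (by positivity) a b
  -- cross terms
  have h2 : |∫ t in a..b, (S n (k + p) t - S n k t) * cos (2 * π * n (k + p) * t)| ≤
      p * (2 / (2 * π * ((1 - q⁻¹) * n (k + p)))) := by
    have e2 : (fun t => (S n (k + p) t - S n k t) * cos (2 * π * n (k + p) * t)) =
        fun t => ∑ i ∈ Finset.range p, cos (2 * π * n (k + i) * t) * cos (2 * π * n (k + p) * t) := by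
      ext t
      have : S n (k + p) t - S n k t = ∑ i ∈ Finset.range p, cos (2 * π * n (k + i) * t) := by
        unfold S; rw [Finset.sum_range_add]; ring
      rw [this, Finset.sum_mul]
    rw [e2, intervalIntegral.integral_finsetSum
      (fun i _ => by apply Continuous.intervalIntegrable; fun_prop)]
    refine (Finset.abs_sum_le_sum_abs _ _).trans ?_
    have : ∀ i ∈ Finset.range p, |∫ t in a..b, cos (2 * π * n (k + i) * t) *
        cos (2 * π * n (k + p) * t)| ≤ 2 / (2 * π * ((1 - q⁻¹) * n (k + p))) := by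
      intro i hi
      have hi' := Finset.mem_range.mp hi
      have hg := h.gap_ge (k + i) (k + p) (by omega)
      have hni := h.npos (k + i)
      have hlt : (n (k + i) : ℝ) < n (k + p) := by
        have : 0 < (1 - q⁻¹) * (n (k + p) : ℝ) := by positivity
        linarith
      refine (abs_integral_cos_mul_cos_le (by positivity) (by gcongr) a b).trans ?_
      apply div_le_div_of_nonneg_left (by norm_num) (by positivity)
      rw [← mul_sub]
      gcongr
    refine (Finset.sum_le_sum this).trans ?_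
    simp
  have hpi := pi_gt_three
  have h3 : (p:ℝ) * (2 / (2 * π * ((1 - q⁻¹) * n (k + p)))) ≤ p * (1 / ((1 - q⁻¹) * n (k + p))) := by
    refine mul_le_mul_of_nonneg_left ?_ (by positivity)
    rw [div_le_div_iff₀ (by positivity) (by positivity)]
    have : 0 < (1 - q⁻¹) * (n (k + p) : ℝ) := by positivity
    nlinarith
  have h4 : 1 / (2 * π * n (k + p)) ≤ 1 / ((1 - q⁻¹) * n (k + p)) := by
    apply div_le_div_of_nonneg_left (by norm_num) (by positivity)
    gcongr
    linarith
  have h5 : (2 * (p:ℝ) + 1) / ((1 - q⁻¹) * n (k + p)) =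
      2 * (p * (1 / ((1 - q⁻¹) * n (k + p)))) + 1 / ((1 - q⁻¹) * n (k + p)) := by
    ring
  rw [h5]
  have h6 := (abs_le.mp h2).1
  linarith

/-- growth of the mean square over an interval of length `2 / n k` -/
theorem l2 : ∃ C3 : ℝ, 0 ≤ C3 ∧ ∀ (k p : ℕ) (a : ℝ),
    (p - C3) / n k ≤ ∫ t in a..(a + 2 / n k), (S n (k + p) t - S n k t) ^ 2 := by
  have hr1 := h.r1
  have hr0 := h.r0
  have hr : 0 < 1 - q⁻¹ := by linarith
  have hs : Summable fun i : ℕ => (2 * (i:ℝ) + 1) * (q⁻¹) ^ i := by
    have h1 := summable_pow_mul_geometric_of_norm_lt_one (R := ℝ) 1 (r := q⁻¹)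
      (by rw [Real.norm_eq_abs, abs_of_pos hr0]; exact hr1)
    have h2 := h.summ_r
    refine ((h1.mul_left 2).add h2).congr fun i => ?_
    ring
  refine ⟨(∑' i : ℕ, (2 * (i:ℝ) + 1) * (q⁻¹) ^ i) / (1 - q⁻¹), by positivity, ?_⟩
  intro k p a
  have hk := h.npos k
  have key : ∀ p : ℕ, (p:ℝ) / n k - (∑ i ∈ Finset.range p, (2 * (i:ℝ) + 1) * (q⁻¹) ^ i) /
      ((1 - q⁻¹) * n k) ≤ ∫ t in a..(a + 2 / n k), (S n (k + p) t - S n k t) ^ 2 := by
    intro p
    induction p with
    | zero => simp
    | succ p ih =>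
      have hst := h.l2step k p a (a + 2 / n k)
      refine le_trans ?_ hst
      have e1 : (a + 2 / n k - a) / 2 = 1 / (n k : ℝ) := by ring
      rw [e1, Finset.sum_range_succ, add_div]
      have e2 : (2 * (p:ℝ) + 1) / ((1 - q⁻¹) * n (k + p)) ≤
          (2 * (p:ℝ) + 1) * q⁻¹ ^ p / ((1 - q⁻¹) * n k) := by
        have g := h.geo' k p
        have hkp := h.npos (k + p)
        rw [div_le_iff₀ hkp] at g
        rw [div_le_div_iff₀ (by positivity) (by positivity)]
        have : (2 * (p:ℝ) + 1) * ((1 - q⁻¹) * n k) ≤ (2 * (p:ℝ) + 1) * ((1 - q⁻¹) * (q⁻¹ ^ p * n (k + p))) := by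
          gcongr
        linarith
      have e3 : ((p + 1 : ℕ) : ℝ) / n k = p / n k + 1 / n k := by push_cast; ring
      rw [e3]
      linarith
  refine le_trans ?_ (key p)
  have hle := hs.sum_le_tsum (Finset.range p) (fun i _ => by positivity)
  have e1 : ((p:ℝ) - (∑' i : ℕ, (2 * (i:ℝ) + 1) * (q⁻¹) ^ i) / (1 - q⁻¹)) / n k =
      p / n k - (∑' i : ℕ, (2 * (i:ℝ) + 1) * (q⁻¹) ^ i) / ((1 - q⁻¹) * n k) := by
    field_simp
  rw [e1]
  have e2 : (∑ i ∈ Finset.range p, (2 * (i:ℝ) + 1) * (q⁻¹) ^ i) / ((1 - q⁻¹) * n k) ≤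
      (∑' i : ℕ, (2 * (i:ℝ) + 1) * (q⁻¹) ^ i) / ((1 - q⁻¹) * n k) := by gcongr
  linarith

end LacSeq

end Pool.Agent.Y253.Lac
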