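import Mathlib
import Pool.Agent.Y253.Lac.L2

set_option autoImplicit false

open MeasureTheory Filter Topology Set Real Metric

namespace Pool.Agent.Y253.Lac

namespace LacSeq

variable {n : ℕ → ℕ} {q : ℝ} (h : LacSeq n q)

theorem S_cont (n : ℕ → ℕ) (m : ℕ) : Continuous (S n m) := by unfold S; fun_prop

theorem S_diff_le (n : ℕ → ℕ) (k p : ℕ) (t : ℝ) : |S n (k + p) t - S n k t| ≤ p := by
  have : S n (k + p) t - S n k t = ∑ i ∈ Finset.range p, cos (2 * π * n (k + i) * t) := by
    unfold S; rw [Finset.sum_range_add]; ring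
  rw [this]
  refine (Finset.abs_sum_le_sum_abs _ _).trans ?_
  refine (Finset.sum_le_sum fun i _ => abs_cos_le_one _).trans ?_
  simp

include h

theorem tendsto_inv : Tendsto (fun k => 1 / (n k : ℝ)) atTop (𝓝[>] 0) := by
  rw [tendsto_nhdsWithin_iff]
  refine ⟨?_, Eventually.of_forall fun k => by have := h.npos k; simp [this]⟩
  refine squeeze_zero (fun k => by have := h.npos k; positivity) (fun k => h.inv_le k) ?_
  exact tendsto_pow_atTop_nhds_zero_of_lt_one h.r0.le h.r1

/-- the set where the partial sums from `M` on oscillate by at most `C` is null -/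
theorem null_osc (M : ℕ) (C : ℝ) : volume {t : ℝ | ∀ j, M ≤ j → |S n j t - S n M t| ≤ C} = 0 := by
  set D : Set ℝ := {t : ℝ | ∀ j, M ≤ j → |S n j t - S n M t| ≤ C} with hD
  have hDc : IsClosed D := by
    have : D = ⋂ j, ⋂ (_ : M ≤ j), {t | |S n j t - S n M t| ≤ C} := by
      ext t; simp [hD]
    rw [this]
    refine isClosed_iInter fun j => isClosed_iInter fun _ => isClosed_le ?_ continuous_const
    have := S_cont n j
    have := S_cont n M
    fun_prop
  have hDm := hDc.measurableSet
  have hae := IsUnifLocDoublingMeasure.ae_tendsto_measure_inter_div (volume : Measure ℝ) D 1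
  suffices hF : ∀ᵐ x ∂(volume.restrict D), False by
    rw [ae_iff] at hF
    simpa using hF
  have hmem : ∀ᵐ x ∂(volume.restrict D), x ∈ D := ae_restrict_mem hDm
  filter_upwards [hae, hmem] with x hx hxD
  obtain ⟨C3, hC3, hl2⟩ := h.l2
  have hC0 : 0 ≤ C := (abs_nonneg _).trans (hxD M le_rfl)
  obtain ⟨p, hp⟩ := exists_nat_gt (C3 + 2 * (2 * C) ^ 2 + 2)
  have ht := hx (fun _ : ℕ => x) (fun k => 1 / (n k : ℝ)) h.tendsto_inv
    (Eventually.of_forall fun k => by
      have := h.npos k
      rw [one_mul, mem_closedBall, dist_self]; positivity)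
  -- a lower bound of the density
  have hlt : ENNReal.ofReal (1 - 1 / ((p:ℝ) ^ 2 + 1)) < 1 := by
    rw [ENNReal.ofReal_lt_one]
    have : 0 < 1 / ((p:ℝ) ^ 2 + 1) := by positivity
    linarith
  have hev := (ht.eventually_const_lt hlt).and (eventually_ge_atTop M)
  obtain ⟨k, hk, hkM⟩ := hev.exists
  have hnk := h.npos k
  set r : ℝ := 1 / (n k : ℝ) with hr
  have hr0 : 0 < r := by positivity
  have hvol : volume (closedBall x r) = ENNReal.ofReal (2 * r) := Real.volume_closedBall x r
  -- mass of the complement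
  have hJ : (volume (closedBall x r \ D)).toReal ≤ 2 * r / ((p:ℝ) ^ 2 + 1) := by
    have hfin : volume (closedBall x r) ≠ ⊤ := by rw [hvol]; exact ENNReal.ofReal_ne_top
    have h1 : volume (closedBall x r ∩ D) + volume (closedBall x r \ D) = volume (closedBall x r) :=
      measure_inter_add_sdiff _ hDm
    have h2 : ENNReal.ofReal (1 - 1 / ((p:ℝ) ^ 2 + 1)) * volume (closedBall x r) ≤
        volume (closedBall x r ∩ D) := by
      rw [inter_comm]
      have hne : volume (closedBall x r) ≠ 0 := by
        rw [hvol]; simp only [ne_eq, ENNReal.ofReal_eq_zero, not_le]; positivity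
      exact (ENNReal.le_div_iff_mul_le (Or.inl hne) (Or.inl hfin)).mp hk.le
    have hfin1 : volume (closedBall x r ∩ D) ≠ ⊤ := measure_ne_top_of_subset inter_subset_left hfin
    have hfin2 : volume (closedBall x r \ D) ≠ ⊤ := measure_ne_top_of_subset sdiff_subset hfin
    have h3 := congrArg ENNReal.toReal h1
    rw [ENNReal.toReal_add hfin1 hfin2, hvol, ENNReal.toReal_ofReal (by positivity)] at h3
    have h4 := ENNReal.toReal_mono hfin1 h2
    have hq0 : 0 ≤ 1 - 1 / ((p:ℝ) ^ 2 + 1) := by
      have : 1 / ((p:ℝ) ^ 2 + 1) ≤ 1 := by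
        rw [div_le_one (by positivity)]
        nlinarith [sq_nonneg (p:ℝ)]
      linarith
    rw [ENNReal.toReal_mul, hvol, ENNReal.toReal_ofReal hq0,
      ENNReal.toReal_ofReal (by positivity)] at h4
    have : 2 * r / ((p:ℝ) ^ 2 + 1) = (1 / ((p:ℝ) ^ 2 + 1)) * (2 * r) := by ring
    rw [this]
    nlinarith
  -- the mean square
  have hlow := hl2 k p (x - r)
  have e1 : x - r + 2 / (n k : ℝ) = x + r := by rw [hr]; ring
  rw [e1, intervalIntegral.integral_of_le (by linarith), ← integral_Icc_eq_integral_Ioc,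
    ← Real.closedBall_eq_Icc] at hlow
  have hfm : volume (closedBall x r) < ⊤ := by rw [hvol]; exact ENNReal.ofReal_lt_top
  have : IsFiniteMeasure (volume.restrict (closedBall x r)) :=
    ⟨by rw [Measure.restrict_apply_univ]; exact hfm⟩
  have hupp : ∫ t in closedBall x r, (S n (k + p) t - S n k t) ^ 2 ≤
      ∫ t in closedBall x r, ((2 * C) ^ 2 + Dᶜ.indicator (fun _ => (p:ℝ) ^ 2) t) := by
    refine setIntegral_mono_on ?_ ?_ measurableSet_closedBall fun t _ => ?_
    · have h1 := S_cont n (k + p)
      have h2 := S_cont n k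
      exact (Continuous.continuousOn (by fun_prop)).integrableOn_compact (isCompact_closedBall x r)
    · refine Integrable.add (integrableOn_const hfm.ne) ?_
      exact (integrable_const _).indicator hDm.compl
    · by_cases htD : t ∈ D
      · have h1 := htD (k + p) (by omega)
        have h2 := htD k hkM
        have h3 : |S n (k + p) t - S n k t| ≤ 2 * C := by
          rw [abs_le] at *
          constructor <;> linarith
        have h4 : 0 ≤ Dᶜ.indicator (fun _ => (p:ℝ) ^ 2) t :=
          indicator_nonneg (fun _ _ => by positivity) _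
        have h5 := sq_le_sq' (by linarith [abs_le.mp h3]) (abs_le.mp h3).2
        linarith
      · rw [indicator_of_mem (show t ∈ Dᶜ from htD)]
        have h3 := S_diff_le n k p t
        have h5 := sq_le_sq' (by linarith [(abs_le.mp h3).1]) (abs_le.mp h3).2
        nlinarith [sq_nonneg (2 * C)]
  rw [integral_add (integrable_const _) ((integrable_const _).indicator hDm.compl),
    integral_indicator hDm.compl, Measure.restrict_restrict hDm.compl, setIntegral_const,
    setIntegral_const] at hupp
  have e2 : Dᶜ ∩ closedBall x r = closedBall x r \ D := by rw [inter_comm]; rfl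
  rw [e2, Measure.real, Measure.real, hvol, ENNReal.toReal_ofReal (by positivity), smul_eq_mul,
    smul_eq_mul] at hupp
  have hfinal := hlow.trans hupp
  have e3 : ((p:ℝ) - C3) / n k = (p - C3) * r := by rw [hr]; ring
  rw [e3] at hfinal
  have h6 : (volume (closedBall x r \ D)).toReal * (p:ℝ) ^ 2 ≤ 2 * r := by
    have h7 : (volume (closedBall x r \ D)).toReal * (p:ℝ) ^ 2 ≤
        2 * r / ((p:ℝ) ^ 2 + 1) * (p:ℝ) ^ 2 := by gcongr
    refine h7.trans ?_
    rw [div_mul_eq_mul_div, div_le_iff₀ (by positivity)]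
    nlinarith [sq_nonneg (p:ℝ)]
  nlinarith

/-- almost everywhere the partial sums are unbounded in both directions -/
theorem unbdd : ∀ᵐ t ∂(volume.restrict (Ico (0:ℝ) 1)),
    ∀ B : ℝ, (∃ k, B < S n k t) ∧ ∃ k, S n k t < B := by
  have hnull : ∀ᵐ t ∂(volume.restrict (Ico (0:ℝ) 1)),
      ∀ M : ℕ, ¬ ∀ j, M ≤ j → |S n j t - S n M t| ≤ 2 * C1 q + 1 := by
    rw [ae_all_iff]
    intro M
    have := h.null_osc M (2 * C1 q + 1)
    rw [← compl_compl {t : ℝ | ∀ j, M ≤ j → |S n j t - S n M t| ≤ 2 * C1 q + 1}, ← mem_ae_iff] at this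
    exact ae_restrict_of_ae this
  filter_upwards [h.dich, hnull] with t ht hM
  rcases ht with ⟨c, hc⟩ | ⟨hA, hB⟩
  · exfalso
    obtain ⟨M, hM'⟩ := (Metric.cauchySeq_iff.mp hc.cauchySeq) 1 one_pos
    apply hM M
    intro j hj
    have h1 := (hM' j hj M le_rfl).le
    rw [Real.dist_eq] at h1
    have h2 := h.approx j t
    have h3 := h.approx M t
    rw [abs_le] at *
    constructor <;> linarith
  · intro B
    constructor
    · by_contra hcon
      push Not at hcon
      apply hA
      refine ⟨B + C1 q, ?_⟩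
      rintro _ ⟨k, rfl⟩
      have h2 := (abs_le.mp (h.approx k t)).2
      have := hcon k
      simp only
      linarith
    · by_contra hcon
      push Not at hcon
      apply hB
      refine ⟨B - C1 q, ?_⟩
      rintro _ ⟨k, rfl⟩
      have h2 := (abs_le.mp (h.approx k t)).1
      have := hcon k
      simp only
      linarith

end LacSeq

end Pool.Agent.Y253.Lac
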