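import Mathlib
import Pool.Agent.Y253.Lac.NoConv

set_option autoImplicit false

open MeasureTheory Filter Topology Set Real Metric

namespace Pool.Agent.Y253.Lac

namespace LacSeq

variable {n : ℕ → ℕ} {q : ℝ}

theorem abs_S_le (n : ℕ → ℕ) (k : ℕ) (t : ℝ) : |S n k t| ≤ k := by
  have := S_diff_le n 0 k t
  simpa [S] using this

theorem crossing {t : ℝ} (ht : ∀ B : ℝ, (∃ k, B < S n k t) ∧ ∃ k, S n k t < B) (ξ : ℝ) (m0 : ℕ) :
    ∃ m, m0 ≤ m ∧ S n m t ≤ ξ ∧ ξ < S n (m + 1) t := by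
  obtain ⟨m1, hm1⟩ := (ht (-(|ξ| + m0 + 1))).2
  have h1 := abs_le.mp (abs_S_le n m1 t)
  have h2 : (m0 : ℝ) < m1 := by linarith [abs_nonneg ξ, h1.1]
  have h2' : m0 < m1 := by exact_mod_cast h2
  have h3 : S n m1 t ≤ ξ := by linarith [neg_abs_le ξ, (Nat.cast_nonneg m0 : (0:ℝ) ≤ m0)]
  obtain ⟨m2, hm2⟩ := (ht (|ξ| + m1 + 1)).1
  have h4 := abs_le.mp (abs_S_le n m2 t)
  have h5 : (m1 : ℝ) < m2 := by linarith [abs_nonneg ξ, h4.2]
  have h5' : m1 < m2 := by exact_mod_cast h5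
  have h6 : ξ < S n m2 t := by linarith [le_abs_self ξ, (Nat.cast_nonneg m1 : (0:ℝ) ≤ m1)]
  by_contra hcon
  push Not at hcon
  have key : ∀ m, m1 ≤ m → S n m t ≤ ξ := by
    intro m hm
    induction m, hm using Nat.le_induction with
    | base => exact h3
    | succ m hm ih => exact hcon m (by omega) ih
  exact absurd (key m2 h5'.le) (not_le.mpr h6)

variable (h : LacSeq n q)

include h

theorem lip (m m' : ℕ) (hm : m' ≤ m + 1) (u z : ℝ) :
    |S n m' u - S n m' z| ≤ 2 * π * n m / (1 - q⁻¹) * |u - z| := by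
  have hr1 := h.r1
  have hr0 := h.r0
  have hr : 0 < 1 - q⁻¹ := by linarith
  have hnm := h.npos m
  unfold S
  rw [← Finset.sum_sub_distrib]
  refine (Finset.abs_sum_le_sum_abs _ _).trans ?_
  have step : ∀ k ∈ Finset.range m', |cos (2 * π * n k * u) - cos (2 * π * n k * z)| ≤
      2 * π * n m * |u - z| * (q⁻¹) ^ (m - k) := by
    intro k hk
    have hk' := Finset.mem_range.mp hk
    have hnk := h.npos k
    refine (abs_cos_sub_cos_le _ _).trans ?_
    rw [← mul_sub, abs_mul, abs_of_pos (by positivity : (0:ℝ) < 2 * π * n k)]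
    have g := h.geo' k (m - k)
    rw [Nat.add_sub_cancel' (by omega), div_le_iff₀ hnm] at g
    calc 2 * π * n k * |u - z| ≤ 2 * π * (q⁻¹ ^ (m - k) * n m) * |u - z| := by gcongr
      _ = _ := by ring
  refine (Finset.sum_le_sum step).trans ?_
  rw [← Finset.mul_sum]
  have e1 : ∑ k ∈ Finset.range m', (q⁻¹) ^ (m - k) ≤ (1 - q⁻¹)⁻¹ := by
    calc ∑ k ∈ Finset.range m', (q⁻¹) ^ (m - k) ≤ ∑ k ∈ Finset.range (m + 1), (q⁻¹) ^ (m - k) :=
          Finset.sum_le_sum_of_subset_of_nonneg (Finset.range_mono hm) (fun _ _ _ => by positivity)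
      _ = ∑ k ∈ Finset.range (m + 1), (q⁻¹) ^ (m + 1 - 1 - k) := by simp
      _ = ∑ i ∈ Finset.range (m + 1), (q⁻¹) ^ i :=
          Finset.sum_range_reflect (fun i => (q⁻¹) ^ i) (m + 1)
      _ ≤ ∑' i, (q⁻¹) ^ i := h.summ_r.sum_le_tsum _ (fun i _ => by positivity)
      _ = _ := tsum_geometric_of_lt_one hr0.le hr1
  calc 2 * π * n m * |u - z| * ∑ k ∈ Finset.range m', (q⁻¹) ^ (m - k)
      ≤ 2 * π * n m * |u - z| * (1 - q⁻¹)⁻¹ := by gcongr
    _ = _ := by ring

/-- near a crossing there is a point where the level is attained exactly -/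
theorem zero_near {t ξ : ℝ} {m : ℕ} (h1 : S n m t ≤ ξ) (h2 : ξ < S n (m + 1) t) :
    ∃ m' z, m ≤ m' ∧ m' ≤ m + 1 ∧ |t - z| ≤ 1 / (2 * n m) ∧ S n m' z = ξ := by
  have hnm := h.npos m
  set y : ℝ := ((⌊(n m : ℝ) * t⌋ : ℝ) + 1 / 2) / n m with hy
  have hyt : |t - y| ≤ 1 / (2 * n m) := by
    have e : t - y = ((n m : ℝ) * t - ⌊(n m : ℝ) * t⌋ - 1 / 2) / n m := by
      rw [hy]; field_simp; ring
    rw [e, abs_div, abs_of_pos hnm, div_le_div_iff₀ hnm (by positivity)]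
    have a1 := Int.floor_le ((n m : ℝ) * t)
    have a2 := Int.lt_floor_add_one ((n m : ℝ) * t)
    have : |(n m : ℝ) * t - ⌊(n m : ℝ) * t⌋ - 1 / 2| ≤ 1 / 2 := by
      rw [abs_le]; constructor <;> linarith
    nlinarith
  have hcos : cos (2 * π * n m * y) = -1 := by
    have e : 2 * π * n m * y = π + (⌊(n m : ℝ) * t⌋ : ℤ) * (2 * π) := by
      rw [hy]; field_simp; ring
    rw [e, cos_add_int_mul_two_pi, cos_pi]
  have hSy : S n (m + 1) y = S n m y - 1 := by
    unfold S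
    rw [Finset.sum_range_succ, hcos]
    ring
  have hbetween : ∀ z ∈ uIcc t y, |t - z| ≤ 1 / (2 * n m) := by
    intro z hz
    refine le_trans ?_ hyt
    rw [abs_sub_comm t z, abs_sub_comm t y]
    exact abs_sub_left_of_mem_uIcc hz
  rcases le_or_gt ξ (S n m y) with hc | hc
  · obtain ⟨z, hz, hz'⟩ := intermediate_value_uIcc (S_cont n m).continuousOn
      (show ξ ∈ uIcc (S n m t) (S n m y) from by rw [uIcc_of_le (h1.trans hc)]; exact ⟨h1, hc⟩)
    exact ⟨m, z, le_rfl, by omega, hbetween z hz, hz'⟩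
  · have hc' : S n (m + 1) y ≤ ξ := by rw [hSy]; linarith
    obtain ⟨z, hz, hz'⟩ := intermediate_value_uIcc (S_cont n (m + 1)).continuousOn
      (show ξ ∈ uIcc (S n (m + 1) t) (S n (m + 1) y) from by
        rw [uIcc_of_ge (hc'.trans h2.le)]; exact ⟨hc', h2.le⟩)
    exact ⟨m + 1, z, by omega, le_rfl, hbetween z hz, hz'⟩

theorem main_level (ξ ε : ℝ) (hε : 0 < ε) (M : ℕ) :
    ∀ᵐ t ∂(volume.restrict (Ico (0:ℝ) 1)), ∃ m, M ≤ m ∧ |S n m t - ξ| < ε := by
  set D : Set ℝ := {t : ℝ | ∀ m, M ≤ m → ε ≤ |S n m t - ξ|} with hD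
  have hr1 := h.r1
  have hr0 := h.r0
  have hr : 0 < 1 - q⁻¹ := by linarith
  set ρ : ℝ := ε * (1 - q⁻¹) / (4 * π) with hρ
  have hρ0 : 0 < ρ := by positivity
  have hae := IsUnifLocDoublingMeasure.ae_tendsto_measure_inter_div (volume : Measure ℝ) D
    (1 / (2 * ρ))
  have hub := h.unbdd
  rw [ae_restrict_iff' measurableSet_Ico] at hub ⊢
  have hDc : IsClosed D := by
    have : D = ⋂ j, ⋂ (_ : M ≤ j), {t | ε ≤ |S n j t - ξ|} := by
      ext t; simp [hD]
    rw [this]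
    refine isClosed_iInter fun j => isClosed_iInter fun _ => isClosed_le continuous_const ?_
    have := S_cont n j
    fun_prop
  rw [ae_restrict_iff' hDc.measurableSet] at hae
  filter_upwards [hae, hub] with t ht hu htI
  by_contra hcon
  push Not at hcon
  have htD : t ∈ D := hcon
  have hu' := hu htI
  have hcr : ∀ i : ℕ, ∃ (m m' : ℕ) (z : ℝ), max i M ≤ m ∧ m ≤ m' ∧ m' ≤ m + 1 ∧
      |t - z| ≤ 1 / (2 * n m) ∧ S n m' z = ξ := by
    intro i
    obtain ⟨m, hm, h1, h2⟩ := crossing hu' ξ (max i M)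
    obtain ⟨m', z, h3, h4, h5, h6⟩ := h.zero_near h1 h2
    exact ⟨m, m', z, hm, h3, h4, h5, h6⟩
  choose m m' z hm hmm' hm'm htz hSz using hcr
  have hlim := ht htD z (fun i => ρ / (n (m i) : ℝ)) (l := atTop) ?_ ?_
  · have hz0 : ∀ i, volume (D ∩ closedBall (z i) (ρ / (n (m i) : ℝ))) = 0 := by
      intro i
      have : D ∩ closedBall (z i) (ρ / (n (m i) : ℝ)) = ∅ := by
        rw [eq_empty_iff_forall_notMem]
        rintro u ⟨huD, huB⟩
        have h1 := huD (m' i) ((le_max_right i M).trans ((hm i).trans (hmm' i)))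
        rw [mem_closedBall, Real.dist_eq] at huB
        have h2 := h.lip (m i) (m' i) (hm'm i) u (z i)
        rw [hSz i] at h2
        have hn := h.npos (m i)
        have h3 : 2 * π * n (m i) / (1 - q⁻¹) * |u - z i| ≤
            2 * π * n (m i) / (1 - q⁻¹) * (ρ / n (m i)) := by gcongr
        have h4 : 2 * π * n (m i) / (1 - q⁻¹) * (ρ / n (m i)) = ε / 2 := by
          obtain ⟨s, hs⟩ : ∃ s, s = 1 - q⁻¹ := ⟨_, rfl⟩
          have hs0 : s ≠ 0 := by rw [hs]; exact hr.ne'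
          rw [hρ, ← hs]; field_simp; ring
        linarith
      rw [this, measure_empty]
    simp only [hz0, ENNReal.zero_div] at hlim
    exact absurd (tendsto_nhds_unique hlim tendsto_const_nhds) (by simp)
  · rw [tendsto_nhdsWithin_iff]
    refine ⟨?_, Eventually.of_forall fun i => by have := h.npos (m i); simp only [mem_Ioi]; positivity⟩
    have h1 : Tendsto (fun i => ρ * (1 / (n i : ℝ))) atTop (𝓝 0) := by
      have := (tendsto_nhdsWithin_iff.mp h.tendsto_inv).1.const_mul ρ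
      rwa [mul_zero] at this
    refine squeeze_zero (fun i => by have := h.npos (m i); positivity) (fun i => ?_) h1
    have a1 := h.npos i
    have a2 : (n i : ℝ) ≤ n (m i) := by
      exact_mod_cast h.n_mono.monotone ((le_max_left i M).trans (hm i))
    rw [mul_one_div]
    gcongr
  · refine Eventually.of_forall fun i => ?_
    have hn := h.npos (m i)
    rw [mem_closedBall, Real.dist_eq]
    refine (htz i).trans (le_of_eq ?_)
    field_simp

theorem main : ∀ᵐ t ∂(volume.restrict (Ico (0:ℝ) 1)), ∀ ξ ε : ℝ, 0 < ε →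
    ∃ᶠ m in atTop, |S n m t - ξ| < ε := by
  have hall : ∀ᵐ t ∂(volume.restrict (Ico (0:ℝ) 1)), ∀ (ξ : ℚ) (j M : ℕ),
      ∃ m, M ≤ m ∧ |S n m t - ξ| < 1 / ((j:ℝ) + 1) :=
    ae_all_iff.mpr fun ξ => ae_all_iff.mpr fun j => ae_all_iff.mpr fun M =>
      h.main_level ξ _ (by positivity) M
  filter_upwards [hall] with t ht ξ ε hε
  rw [frequently_atTop]
  intro M
  obtain ⟨j, hj⟩ := exists_nat_one_div_lt (half_pos hε)
  obtain ⟨r, hr1, hr2⟩ := exists_rat_btwn (show ξ < ξ + ε / 2 by linarith)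
  obtain ⟨m, hm, hm'⟩ := ht r j M
  refine ⟨m, hm, ?_⟩
  rw [abs_lt] at *
  constructor <;> linarith

end LacSeq

/-- the statement in the variable `x ∈ [0, 2π)` -/
theorem final (n : ℕ → ℕ) (q : ℝ) (hq : 1 < q) (hn : ∀ k, 0 < n k)
    (hgap : ∀ k, q * (n k : ℝ) ≤ (n (k + 1) : ℝ)) :
    MeasureTheory.volume
        {x : ℝ | x ∈ Set.Ico 0 (2 * Real.pi) ∧
          ∀ ξ : ℝ, ∀ ε : ℝ, 0 < ε →
            ∃ᶠ m in Filter.atTop,
              |(∑ k ∈ Finset.range m, Real.cos ((n k : ℝ) * x)) - ξ| < ε}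
        = ENNReal.ofReal (2 * Real.pi) := by
  have h : LacSeq n q := ⟨hq, hn, hgap⟩
  have hm := h.main
  rw [ae_restrict_iff' measurableSet_Ico] at hm
  set A : Set ℝ := {x : ℝ | x ∈ Set.Ico 0 (2 * Real.pi) ∧
          ∀ ξ : ℝ, ∀ ε : ℝ, 0 < ε →
            ∃ᶠ m in Filter.atTop,
              |(∑ k ∈ Finset.range m, Real.cos ((n k : ℝ) * x)) - ξ| < ε} with hA
  set Z : Set ℝ := {t : ℝ | ¬ (t ∈ Ico (0:ℝ) 1 → ∀ ξ ε : ℝ, 0 < ε →
    ∃ᶠ m in atTop, |S n m t - ξ| < ε)} with hZ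
  have hZ0 : volume Z = 0 := hm
  have hpi := pi_pos
  have hpre : volume ((fun x : ℝ => (2 * π)⁻¹ * x) ⁻¹' Z) = 0 := by
    rw [Real.volume_preimage_mul_left (by positivity), hZ0, mul_zero]
  have hdiff : volume (Ico (0:ℝ) (2 * π) \ A) = 0 := by
    refine measure_mono_null ?_ hpre
    rintro x ⟨hx, hxA⟩
    simp only [mem_preimage, hZ, mem_ofPred_eq]
    intro hcon
    apply hxA
    refine ⟨hx, fun ξ ε hε => ?_⟩
    have h1 := hcon ⟨by have := hx.1; positivity, by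
      rw [inv_mul_lt_iff₀ (by positivity)]; linarith [hx.2]⟩ ξ ε hε
    refine h1.mono fun m hm' => ?_
    have e : S n m ((2 * π)⁻¹ * x) = ∑ k ∈ Finset.range m, Real.cos ((n k : ℝ) * x) := by
      unfold S
      refine Finset.sum_congr rfl fun k _ => ?_
      congr 1
      field_simp
    rwa [e] at hm'
  have hsub : A ⊆ Ico (0:ℝ) (2 * π) := fun x hx => hx.1
  have hle : volume A ≤ volume (Ico (0:ℝ) (2 * π)) := measure_mono hsub
  have hge : volume (Ico (0:ℝ) (2 * π)) ≤ volume A := by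
    calc volume (Ico (0:ℝ) (2 * π)) ≤ volume (A ∪ (Ico (0:ℝ) (2 * π) \ A)) :=
          measure_mono (by intro x hx; by_cases hxA : x ∈ A
                           · exact Or.inl hxA
                           · exact Or.inr ⟨hx, hxA⟩)
      _ ≤ volume A + volume (Ico (0:ℝ) (2 * π) \ A) := measure_union_le _ _
      _ = volume A := by rw [hdiff, add_zero]
  rw [le_antisymm hle hge, Real.volume_Ico, sub_zero]

end Pool.Agent.Y253.Lac
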